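import Pool.Agent.H507_P.Fin

set_option autoImplicit false

/-!
# Generic limits of hyperbolic groups and residual finiteness

The question Q1 (is there a comeager subset of the closure of the set of non-elementary hyperbolic
marked groups with only countably many elementary equivalence classes?) is equivalent to the
question whether some word-hyperbolic group is not residually finite.

* If all hyperbolic groups are residually finite, then below every non-empty open set both the
  presence and the absence of a finite normal subgroup with a larger centralizer index can be
  forced, so that no theory is locally generic.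
* If some hyperbolic group is not residually finite, then a dense set of hyperbolic groups `Q` has a
  smallest subgroup of finite index; this bounds, for all the quotients of `Q`, the index of the
  centralizer of the finite radical, and common quotients give a locally generic theory.
-/

namespace Pool.Agent.Results.MP_565fc2_lc.IffResidual

open Pool.Agent.H507 Pool.Agent.H71R2.Hyp Pool.Agent.TH68

/-- the set `ℋ` of the non-elementary hyperbolic marked groups -/
def calH : Set MG := {N : MG | Hyperbolic N.grp ∧ ¬ Elem N.grp}

/-- residually finite groups: every non-trivial element is outside of some normal subgroup of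
finite index -/
def ResFin (G : Type) [Group G] : Prop :=
  ∀ g : G, g ≠ 1 → ∃ N : Subgroup G, N.Normal ∧ N.FiniteIndex ∧ g ∉ N

theorem calH_eq : calH = clsH := by
  ext N
  simp only [calH, clsH, Set.mem_ofPred_eq, hyp_iff]

theorem resFin_iff {G : Type} [Group G] : ResFin G ↔ fres G = ⊥ := by
  constructor
  · intro h
    rw [eq_bot_iff]
    intro g hg
    by_contra hg1
    obtain ⟨N, -, hN, hgN⟩ := h g (fun h => hg1 (by rw [h]; exact one_mem _))
    exact hgN ((sInf_le (show N ∈ {N : Subgroup G | N.FiniteIndex} from hN) :
      sInf {N : Subgroup G | N.FiniteIndex} ≤ N) hg)
  · intro h g hg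
    by_contra hcon
    push Not at hcon
    apply hg
    have : g ∈ fres G := by
      rw [fres, Subgroup.mem_sInf]
      intro N hN
      have : N.FiniteIndex := hN
      have h1 := hcon N.normalCore inferInstance inferInstance
      exact N.normalCore_le h1
    rw [h] at this
    exact this

/-- Q1 is equivalent to the existence of a hyperbolic group that is not residually finite. If all
hyperbolic groups are residually finite, then the part of any comeager set in any non-empty open
set has uncountably many elementary equivalence classes. -/
theorem result :
    ((∃ S : Set (closure calH), S ∈ residual (closure calH) ∧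
        ((fun N : closure calH => thy N.1) '' S).Countable) ↔
      ∃ (G : Type) (_ : Group G), Hyperbolic G ∧ ¬ ResFin G) ∧
    ((∀ (G : Type) [Group G], Hyperbolic G → ResFin G) →
      ∀ U : Set MG, IsOpen U → (U ∩ closure calH).Nonempty →
      ∀ S : Set (closure calH), S ∈ residual (closure calH) →
        ¬ ((fun N : closure calH => thy N.1) '' (S ∩ Subtype.val ⁻¹' U)).Countable) := by
  rw [calH_eq]
  have part2 : (∀ (G : Type) [Group G], Hyperbolic G → ResFin G) →
      ∀ U : Set MG, IsOpen U → (U ∩ closure clsH).Nonempty →
      ∀ S : Set (closure clsH), S ∈ residual (closure clsH) →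
        ¬ ((fun N : closure clsH => thy N.1) '' (S ∩ Subtype.val ⁻¹' U)).Countable := by
    intro hrf U hU hne S hS
    obtain ⟨N, hNU, hN⟩ := hne
    exact uncountable_of_RF (fun G _ hG => resFin_iff.1 (hrf G (hyp_iff.2 hG))) U hU
      (mem_closure_iff.1 hN U hU hNU) S hS
  refine ⟨⟨?_, ?_⟩, part2⟩
  · rintro ⟨S, hS, hc⟩
    by_contra hcon
    push Not at hcon
    obtain ⟨N, hN⟩ := clsH_nonempty
    refine part2 (fun G _ hG => hcon G inferInstance hG) Set.univ isOpen_univ
      ⟨N, trivial, subset_closure hN⟩ S hS (hc.mono (Set.image_mono Set.inter_subset_left))
  · rintro ⟨G, _, hG, hres⟩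
    rw [resFin_iff] at hres
    have h := machine (fun _ => True) (fun _ _ _ _ => trivial) (by
      rw [clsP_true]
      exact fun U hU hne => bound_of_nonRF (hyp_iff.1 hG) hres U hU hne)
    rw [clsP_true] at h
    exact h

end Pool.Agent.Results.MP_565fc2_lc.IffResidual
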